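import Pool.Agent.U73.LS.Stm2

/-!
# Project LS, package ISO: each semistable curve is counted once
-/

set_option autoImplicit false

namespace Pool.Agent.U261.LS

open Pool.Agent.U73.LS

theorem nodiv {c d : ℤ} (h : Sm c d) {q : ℕ} (hq : q.Prime) (h4 : (q : ℤ) ^ 4 ∣ c)
    (h6 : (q : ℤ) ^ 6 ∣ d) : False := by
  have hs := sm_sp h hq
  unfold Sp at hs
  split_ifs at hs with h2 h3
  · subst h2
    norm_num at h4 h6
    rcases hs with ⟨h5, -, -⟩ | ⟨-, h5⟩
    · exact h5 (dvd_trans (by norm_num) h4)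
    · omega
  · subst h3
    norm_num at h4 h6
    rcases hs with ⟨h5, -⟩ | ⟨-, h5, -⟩
    · exact h5 (dvd_trans (by norm_num) h4)
    · exact h5 (dvd_trans (by norm_num) h4)
  · exact hs ⟨(dvd_pow_self _ (by norm_num)).trans h4, (dvd_pow_self _ (by norm_num)).trans h6⟩

/-- a prime dividing `n` gives a contradiction if `c' n^4 = c m^4`, `d' n^6 = d m^6` -/
theorem side {c d c' d' m n : ℤ} (h : Sm c d) (hmn : IsCoprime m n) (e4 : c' * n ^ 4 = c * m ^ 4)
    (e6 : d' * n ^ 6 = d * m ^ 6) : n.natAbs = 1 := by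
  by_contra hn
  obtain ⟨q, hq, hqn⟩ := Nat.exists_prime_and_dvd hn
  have hqn' : (q : ℤ) ∣ n := Int.natCast_dvd.2 hqn
  have hco : IsCoprime (q : ℤ) m := (hmn.symm.of_isCoprime_of_dvd_left hqn')
  have h4 : (q : ℤ) ^ 4 ∣ c := by
    have h1 : (q : ℤ) ^ 4 ∣ c * m ^ 4 := by
      rw [← e4]; exact Dvd.dvd.mul_left (pow_dvd_pow_of_dvd hqn' 4) _
    exact (hco.pow (m := 4) (n := 4)).dvd_of_dvd_mul_right h1
  have h6 : (q : ℤ) ^ 6 ∣ d := by
    have h1 : (q : ℤ) ^ 6 ∣ d * m ^ 6 := by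
      rw [← e6]; exact Dvd.dvd.mul_left (pow_dvd_pow_of_dvd hqn' 6) _
    exact (hco.pow (m := 6) (n := 6)).dvd_of_dvd_mul_right h1
  exact nodiv h hq h4 h6

theorem t_ISO : S_ISO := by
  intro c d c' d' h h' u hu e4 e6
  set m : ℤ := u.num with hm
  set n : ℤ := (u.den : ℤ) with hn
  have hn0 : (n : ℚ) ≠ 0 := by rw [hn]; exact_mod_cast u.den_nz
  have hum : u = (m : ℚ) / n := by rw [hm, hn]; push_cast; exact (Rat.num_div_den u).symm
  have hco : IsCoprime m n := by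
    rw [hm, hn, Int.isCoprime_iff_gcd_eq_one]
    exact u.reduced
  have f4 : c' * n ^ 4 = c * m ^ 4 := by
    have : (c' : ℚ) * n ^ 4 = c * m ^ 4 := by
      rw [e4, hum]; field_simp
    exact_mod_cast this
  have f6 : d' * n ^ 6 = d * m ^ 6 := by
    have : (d' : ℚ) * n ^ 6 = d * m ^ 6 := by
      rw [e6, hum]; field_simp
    exact_mod_cast this
  have hn1 := side h hco f4 f6
  have hm1 := side h' hco.symm f4.symm f6.symm
  have n2 : n ^ 2 = 1 := by
    have := Int.natAbs_sq n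
    rw [hn1] at this
    simpa using this.symm
  have m2 : m ^ 2 = 1 := by
    have := Int.natAbs_sq m
    rw [hm1] at this
    simpa using this.symm
  have n4 : n ^ 4 = 1 := by rw [show (4 : ℕ) = 2 * 2 from rfl, pow_mul, n2, one_pow]
  have m4 : m ^ 4 = 1 := by rw [show (4 : ℕ) = 2 * 2 from rfl, pow_mul, m2, one_pow]
  have n6 : n ^ 6 = 1 := by rw [show (6 : ℕ) = 2 * 3 from rfl, pow_mul, n2, one_pow]
  have m6 : m ^ 6 = 1 := by rw [show (6 : ℕ) = 2 * 3 from rfl, pow_mul, m2, one_pow]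
  rw [n4, m4, mul_one, mul_one] at f4
  rw [n6, m6, mul_one, mul_one] at f6
  exact ⟨f4, f6⟩

end Pool.Agent.U261.LS
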